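import Pool.Agent.Lib.MP_211349_ag.P2.Curve

/-!
# Algebra of the rings `R[x, y] / (y² + x² y - f(x))`
-/

open CategoryTheory Limits AlgebraicGeometry Polynomial

universe u

noncomputable section

namespace Pool.Agent.Lib.MP_211349_ag.Even

section general

variable {R : Type u} [CommRing R]

theorem finitePresentation_DC (f : R[X]) : Algebra.FinitePresentation R (DC f) := inferInstance


/-- Jacobian criterion. -/
theorem formallySmooth_DC (f : R[X]) (hf : ∃ α β : DC f, α * (2 * DC.y f + DC.x f ^ 2) +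
      β * (2 * DC.x f * DC.y f - AdjoinRoot.of _ (derivative f)) = 1) :
    Algebra.FormallySmooth R (DC f) := by
  refine .of_comp_surjective fun B _ _ I hI g ↦ ?_
  obtain ⟨α, β, hαβ⟩ := hf
  obtain ⟨x', hx'⟩ := Ideal.Quotient.mk_surjective (g (DC.x f))
  obtain ⟨y', hy'⟩ := Ideal.Quotient.mk_surjective (g (DC.y f))
  obtain ⟨α', hα'⟩ := Ideal.Quotient.mk_surjective (g α)
  obtain ⟨β', hβ'⟩ := Ideal.Quotient.mk_surjective (g β)
  have hgof : ∀ p : R[X], g (AdjoinRoot.of _ p) = Ideal.Quotient.mk I (aeval x' p) := by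
    intro p
    have h1 : (g : DC f →+* B ⧸ I).comp (AdjoinRoot.of (rel f)) =
        (Ideal.Quotient.mk I).comp ((aeval x' : R[X] →ₐ[R] B) : R[X] →+* B) := by
      refine Polynomial.ringHom_ext (fun r => ?_) ?_
      · simp only [RingHom.comp_apply, RingHom.coe_coe, aeval_C]
        have : AdjoinRoot.of (rel f) (C r) = algebraMap R (DC f) r := rfl
        rw [this, AlgHom.commutes]
        rfl
      · simp only [RingHom.comp_apply, RingHom.coe_coe, aeval_X]
        exact hx'.symm
    exact RingHom.congr_fun h1 p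
  set e : B := y' ^ 2 + x' ^ 2 * y' - aeval x' f with he
  have heI : e ∈ I := by
    rw [← Ideal.Quotient.eq_zero_iff_mem, he, map_sub, map_add, map_mul, map_pow, map_pow, hy', hx',
      ← hgof, ← map_pow, ← map_pow, ← map_mul, ← map_add, DC.y_sq, sub_self]
  have hmul : ∀ u ∈ I, ∀ v ∈ I, u * v = 0 := by
    intro u hu v hv
    have : u * v ∈ I ^ 2 := by
      rw [pow_two]
      exact Ideal.mul_mem_mul hu hv
    rw [hI] at this
    simpa using this
  have hi : α' * (2 * y' + x' ^ 2) + β' * (2 * x' * y' - aeval x' (derivative f)) - 1 ∈ I := by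
    rw [← Ideal.Quotient.eq_zero_iff_mem]
    simp only [map_sub, map_add, map_mul, map_pow, map_ofNat, map_one]
    rw [hα', hβ', hx', hy', ← hgof]
    have h1 := congrArg g hαβ
    simp only [map_sub, map_add, map_mul, map_pow, map_ofNat, map_one] at h1
    rw [h1, sub_self]
  have hei := hmul e heI _ hi
  set u : B := -(e * β') with hu
  set v : B := -(e * α') with hv
  have huI : u ∈ I := I.neg_mem (Ideal.mul_mem_right _ _ heI)
  have hvI : v ∈ I := I.neg_mem (Ideal.mul_mem_right _ _ heI)
  have huu : u * u = 0 := hmul u huI u huI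
  have huv : u * v = 0 := hmul u huI v hvI
  have hvv : v * v = 0 := hmul v hvI v hvI
  have hroot : (y' + v) ^ 2 + (x' + u) ^ 2 * (y' + v) = aeval (x' + u) f := by
    rw [aeval_add_of_sq_eq_zero f x' u (by rw [pow_two]; exact huu)]
    have h1 : (y' + v) ^ 2 + (x' + u) ^ 2 * (y' + v) - (aeval x' f + aeval x' (derivative f) * u) =
        e + (2 * y' + x' ^ 2) * v + (2 * x' * y' - aeval x' (derivative f)) * u +
          v * v + (u * u) * (y' + v) + 2 * x' * (u * v) := by
      rw [he]
      ring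
    rw [← sub_eq_zero, h1, huu, hvv, huv, hu, hv]
    linear_combination -hei
  let F : DC f →+* B := AdjoinRoot.lift ((aeval (x' + u) : R[X] →ₐ[R] B) : R[X] →+* B) (y' + v) (by
    rw [eval₂_rel]
    simp only [RingHom.coe_coe, aeval_X]
    rw [hroot, sub_self])
  have hFof : ∀ p : R[X], F (AdjoinRoot.of _ p) = aeval (x' + u) p := fun p =>
    AdjoinRoot.lift_of _
  have hFroot : F (AdjoinRoot.root _) = y' + v := AdjoinRoot.lift_root _
  let F' : DC f →ₐ[R] B := { F with
    commutes' := by
      intro r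
      change F (AdjoinRoot.of _ (C r)) = _
      rw [hFof, aeval_C] }
  refine ⟨F', ?_⟩
  have hcomp : ((Ideal.Quotient.mkₐ R I).comp F' : DC f →+* B ⧸ I) = (g : DC f →+* B ⧸ I) := by
    refine AdjoinRoot.ringHom_ext ?_ ?_
    · refine Polynomial.ringHom_ext (fun r => ?_) ?_
      · change Ideal.Quotient.mk I (F (AdjoinRoot.of _ (C r))) = g (AdjoinRoot.of _ (C r))
        rw [hFof, hgof, aeval_C, aeval_C]
      · change Ideal.Quotient.mk I (F (AdjoinRoot.of _ X)) = g (AdjoinRoot.of _ X)
        rw [hFof, hgof, aeval_X, aeval_X, map_add, Ideal.Quotient.eq_zero_iff_mem.mpr huI,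
          add_zero]
    · change Ideal.Quotient.mk I (F (AdjoinRoot.root _)) = g (DC.y f)
      rw [hFroot, map_add, hy', Ideal.Quotient.eq_zero_iff_mem.mpr hvI, add_zero]
  exact AlgHom.ext fun z => RingHom.congr_fun hcomp z


theorem of_C (f : R[X]) (a : R) : AdjoinRoot.of (rel f) (C a) = algebraMap R (DC f) a := rfl

theorem of_map (f : R[X]) (n : ℕ) (a : R) :
    AdjoinRoot.of (rel f) (C a * X ^ n) = algebraMap R (DC f) a * DC.x f ^ n := by
  rw [map_mul, map_pow]
  rfl

theorem jacobian_f0 (c : R) (h2 : (2 : R) = 0) (hc : IsUnit c) :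
    ∃ α β : A0 c, α * (2 * DC.y (f0 c) + DC.x (f0 c) ^ 2) +
      β * (2 * DC.x (f0 c) * DC.y (f0 c) - AdjoinRoot.of _ (derivative (f0 c))) = 1 := by
  obtain ⟨d, hd⟩ := hc.exists_right_inv
  have h2' : (2 : A0 c) = 0 := by
    have := congrArg (algebraMap R (A0 c)) h2
    rwa [map_ofNat, map_zero] at this
  have hd' : algebraMap R (A0 c) c * algebraMap R (A0 c) d = 1 := by
    rw [← map_mul, hd, map_one]
  have h1 : derivative (f0 c) = C 7 * X ^ 6 + C c * X ^ 0 := by
    unfold f0
    simp only [derivative_add, derivative_X_pow, derivative_C_mul, derivative_X, pow_zero]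
    norm_num
  refine ⟨-(algebraMap R (A0 c) d * algebraMap R (A0 c) 7 * DC.x (f0 c) ^ 4),
    -(algebraMap R (A0 c) d), ?_⟩
  rw [h1, map_add, of_map, of_map, h2']
  linear_combination hd'


theorem jacobian_f1 (c : R) (h2 : (2 : R) = 0) :
    ∃ α β : A1 c, α * (2 * DC.y (f1 c) + DC.x (f1 c) ^ 2) +
      β * (2 * DC.x (f1 c) * DC.y (f1 c) - AdjoinRoot.of _ (derivative (f1 c))) = 1 := by
  have h2' : (2 : A1 c) = 0 := by
    have := congrArg (algebraMap R (A1 c)) h2
    rwa [map_ofNat, map_zero] at this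
  have h1 : derivative (f1 c) = C 1 * X ^ 0 + C (c * 7) * X ^ 6 := by
    unfold f1
    simp only [derivative_add, derivative_X_pow, derivative_C_mul, derivative_X, pow_zero, C_mul,
      C_1]
    norm_num
    ring
  refine ⟨-(algebraMap R (A1 c) (c * 7) * DC.x (f1 c) ^ 4), -1, ?_⟩
  rw [h1, map_add, of_map, of_map, h2', map_one]
  ring


theorem rel_eq (f : R[X]) : rel f = X ^ 2 + (C (X ^ 2) * X - C f) := by
  unfold rel
  ring

theorem degree_aux (f : R[X]) : (C (X ^ 2) * X - C f : R[X][X]).degree < 2 := by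
  refine (degree_sub_le _ _).trans_lt (max_lt ?_ ?_)
  · exact (degree_C_mul_X_le _).trans_lt (by norm_num)
  · exact degree_C_le.trans_lt (by norm_num)

theorem rel_monic (f : R[X]) : (rel f).Monic := by
  rw [rel_eq]
  exact monic_X_pow_add (degree_aux f)

theorem natDegree_rel [Nontrivial R] (f : R[X]) : (rel f).natDegree = 2 := by
  rw [rel_eq]
  have h : (X ^ 2 + (C (X ^ 2) * X - C f) : R[X][X]).degree = (2 : ℕ) := by
    rw [degree_add_eq_left_of_degree_lt]
    · exact degree_X_pow 2
    · rw [degree_X_pow]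
      exact degree_aux f
  exact natDegree_eq_of_degree_eq_some h

/-- `R[X] → R[x, y] / (y² + x² y - f(x))` is injective and `DC f` is a finite `R[X]`-module. -/
theorem of_injective_DC (f : R[X]) : Function.Injective (AdjoinRoot.of (rel f)) := by
  rw [injective_iff_map_eq_zero]
  intro r hr
  by_contra hne
  rcases subsingleton_or_nontrivial R with h | h
  · exact hne (Subsingleton.elim _ _)
  have h1 : rel f ∣ C r := AdjoinRoot.mk_eq_zero.1 hr
  refine (rel_monic f).not_dvd_of_natDegree_lt (fun h0 => hne (C_eq_zero.1 h0)) ?_ h1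
  rw [natDegree_C, natDegree_rel]
  exact two_pos

theorem finite_DC (f : R[X]) : Module.Finite R[X] (DC f) := (rel_monic f).finite_adjoinRoot


/-- Two ring homomorphisms out of `DC f` agree if they agree on `R`, `x`, `y`. -/
theorem DC.hom_ext {S : Type*} [CommRing S] (f : R[X]) (φ ψ : DC f →+* S)
    (hC : ∀ a : R, φ (algebraMap R (DC f) a) = ψ (algebraMap R (DC f) a))
    (hx : φ (DC.x f) = ψ (DC.x f)) (hy : φ (DC.y f) = ψ (DC.y f)) : φ = ψ := by
  have h1 : φ.comp (AdjoinRoot.of (rel f)) = ψ.comp (AdjoinRoot.of (rel f)) :=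
    Polynomial.ringHom_ext (fun a => hC a) hx
  refine Ideal.Quotient.ringHom_ext (Polynomial.ringHom_ext (fun p => ?_) hy)
  exact RingHom.congr_fun h1 p

/-- Ring homomorphisms out of `DC f`. -/
theorem DC.exists_hom {S : Type*} [CommRing S] (f : R[X]) (ρ : R →+* S) (x y : S)
    (h : y ^ 2 + x ^ 2 * y = f.eval₂ ρ x) :
    ∃ φ : DC f →+* S, φ.comp (algebraMap R (DC f)) = ρ ∧ φ (DC.x f) = x ∧ φ (DC.y f) = y := by
  have h' : (rel f).eval₂ (eval₂RingHom ρ x) y = 0 := by
    rw [eval₂_rel, coe_eval₂RingHom, eval₂_X, h, sub_self]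
  refine ⟨AdjoinRoot.lift (eval₂RingHom ρ x) y h', ?_, ?_, ?_⟩
  · ext a
    change AdjoinRoot.lift (eval₂RingHom ρ x) y h' (AdjoinRoot.of _ (C a)) = ρ a
    rw [AdjoinRoot.lift_of, coe_eval₂RingHom, eval₂_C]
  · rw [DC.x, AdjoinRoot.lift_of, coe_eval₂RingHom, eval₂_X]
  · exact AdjoinRoot.lift_root _


end general

section field

variable {K : Type u} [Field K]

/-- `K[x, y] / (y² + x² y - f(x))` is a domain if the degree of `f` is seven. -/
theorem isDomain_DC (f : K[X]) (hf : f.natDegree = 7) : IsDomain (DC f) := by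
  have hm : (rel f).Monic := rel_monic f
  have hd : (rel f).natDegree = 2 := natDegree_rel f
  have hirr : Irreducible (rel f) := by
    rw [hm.irreducible_iff_roots_eq_zero_of_degree_le_three (by rw [hd]) (by rw [hd]; norm_num)]
    rw [Multiset.eq_zero_iff_forall_notMem]
    intro g hg
    rw [mem_roots hm.ne_zero, IsRoot.def] at hg
    have hg' : g ^ 2 + X ^ 2 * g = f := by
      have h := eval₂_rel (RingHom.id K[X]) g f
      rw [eval₂_id, hg, RingHom.id_apply, RingHom.id_apply] at h
      exact (sub_eq_zero.mp h.symm)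
    have h1 : (X ^ 2 * g).natDegree ≤ 2 + g.natDegree := by
      refine natDegree_mul_le.trans ?_
      rw [natDegree_X_pow]
    by_cases hle : g.natDegree ≤ 2
    · have h2 : (g ^ 2 + X ^ 2 * g).natDegree ≤ 4 := by
        refine natDegree_add_le_of_degree_le ?_ ?_
        · rw [natDegree_pow]
          omega
        · omega
      rw [hg', hf] at h2
      omega
    · have h2 : (g ^ 2 + X ^ 2 * g).natDegree = (g ^ 2).natDegree := by
        refine natDegree_add_eq_left_of_natDegree_lt ?_
        rw [natDegree_pow]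
        omega
      rw [hg', hf, natDegree_pow] at h2
      omega
  exact AdjoinRoot.isDomain_of_prime hirr.prime


theorem natDegree_f0 (c : K) : (f0 c).natDegree = 7 := by
  unfold f0
  compute_degree!

theorem natDegree_f1 (c : K) (hc : c ≠ 0) : (f1 c).natDegree = 7 := by
  unfold f1
  compute_degree!


theorem isDomain_A0 (c : K) : IsDomain (A0 c) := isDomain_DC _ (natDegree_f0 c)

theorem isDomain_A1 (c : K) (hc : c ≠ 0) : IsDomain (A1 c) := isDomain_DC _ (natDegree_f1 c hc)

end field

section baseChange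

variable {R T : Type u} [CommRing R] [CommRing T]

-- BEGIN SA9
/-- The map `R[x, y] / (y² - f(x)) → T[x, y] / (y² - g(x))` for `g = f.map φ`. -/
def DC.map (φ : R →+* T) (f : R[X]) (g : T[X]) (h : f.map φ = g) : DC f →+* DC g :=
  AdjoinRoot.lift ((AdjoinRoot.of (rel g)).comp (mapRingHom φ)) (DC.y g) (by
    have h1 := DC.y_sq g
    rw [eval₂_rel]
    simp only [RingHom.comp_apply, coe_mapRingHom, map_X]
    rw [h, ← h1, DC.x, sub_self])

theorem DC.map_x (φ : R →+* T) (f : R[X]) (g : T[X]) (h : f.map φ = g) :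
    DC.map φ f g h (DC.x f) = DC.x g := by
  refine (AdjoinRoot.lift_of _).trans ?_
  rw [RingHom.comp_apply, coe_mapRingHom, map_X]
  rfl

theorem DC.map_y (φ : R →+* T) (f : R[X]) (g : T[X]) (h : f.map φ = g) :
    DC.map φ f g h (DC.y f) = DC.y g :=
  AdjoinRoot.lift_root _

theorem DC.map_algebraMap (φ : R →+* T) (f : R[X]) (g : T[X]) (h : f.map φ = g) :
    (DC.map φ f g h).comp (algebraMap R (DC f)) = (algebraMap T (DC g)).comp φ := by
  refine RingHom.ext fun a => ?_
  have h1 : DC.map φ f g h (AdjoinRoot.of (rel f) (C a)) =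
      ((AdjoinRoot.of (rel g)).comp (mapRingHom φ)) (C a) :=
    AdjoinRoot.lift_of _
  change DC.map φ f g h (AdjoinRoot.of (rel f) (C a)) = _
  rw [h1, RingHom.comp_apply, coe_mapRingHom, map_C]
  rfl

theorem map_map_f0 (φ : R →+* T) (c : R) : (f0 c).map φ = f0 (φ c) := by
  simp [f0]

theorem map_map_f1 (φ : R →+* T) (c : R) : (f1 c).map φ = f1 (φ c) := by
  simp [f1]
-- END SA9

-- BEGIN SA10
/-- `T[x, y] / (y² - f(x))` is the pushout of `R[x, y] / (y² - f(x))` and `T` over `R`
(universal property, from `DC.exists_hom` and `DC.hom_ext`). -/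
theorem isPushout_DC (φ : R →+* T) (f : R[X]) (g : T[X]) (h : f.map φ = g) :
    IsPushout (CommRingCat.ofHom (algebraMap R (DC f))) (CommRingCat.ofHom φ)
      (CommRingCat.ofHom (DC.map φ f g h)) (CommRingCat.ofHom (algebraMap T (DC g))) := by
  have key : ∀ s : PushoutCocone (CommRingCat.ofHom (algebraMap R (DC f))) (CommRingCat.ofHom φ),
      ∃ θ : DC g →+* s.pt, θ.comp (algebraMap T (DC g)) = s.inr.hom ∧
        θ (DC.x g) = s.inl.hom (DC.x f) ∧ θ (DC.y g) = s.inl.hom (DC.y f) := by
    intro s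
    have hc : s.inl.hom.comp (algebraMap R (DC f)) = s.inr.hom.comp φ := by
      have := congrArg CommRingCat.Hom.hom s.condition
      simpa using this
    apply DC.exists_hom g s.inr.hom
    rw [← map_pow, ← map_pow, ← map_mul, ← map_add, DC.y_sq, ← h, eval₂_map, ← hc]
    have h1 : (s.inl.hom.comp (AdjoinRoot.of (rel f))) =
        eval₂RingHom (s.inl.hom.comp (algebraMap R (DC f))) (s.inl.hom (DC.x f)) := by
      refine Polynomial.ringHom_ext (fun a => ?_) ?_
      · rw [coe_eval₂RingHom, eval₂_C]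
        rfl
      · rw [coe_eval₂RingHom, eval₂_X]
        rfl
    exact RingHom.congr_fun h1 f
  choose θ h1 h2 h3 using key
  refine ⟨⟨?_⟩, ⟨PushoutCocone.IsColimit.mk _ (fun s => CommRingCat.ofHom (θ s)) ?_ ?_ ?_⟩⟩
  · rw [← CommRingCat.ofHom_comp, ← CommRingCat.ofHom_comp, DC.map_algebraMap]
  · intro s
    apply CommRingCat.hom_ext
    have hc : s.inl.hom.comp (algebraMap R (DC f)) = s.inr.hom.comp φ := by
      have := congrArg CommRingCat.Hom.hom s.condition
      simpa using this
    refine DC.hom_ext f _ _ (fun a => ?_) ?_ ?_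
    · have h4 := RingHom.congr_fun (DC.map_algebraMap φ f g h) a
      have h5 := RingHom.congr_fun (h1 s) (φ a)
      have h6 := RingHom.congr_fun hc a
      simp only [RingHom.comp_apply] at h4 h5 h6
      change θ s (DC.map φ f g h (algebraMap R (DC f) a)) = _
      rw [h4, h5, h6]
    · change θ s (DC.map φ f g h (DC.x f)) = _
      rw [DC.map_x, h2]
    · change θ s (DC.map φ f g h (DC.y f)) = _
      rw [DC.map_y, h3]
  · intro s
    apply CommRingCat.hom_ext
    exact h1 s
  · intro s m hm1 hm2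
    apply CommRingCat.hom_ext
    have e1 : m.hom.comp (DC.map φ f g h) = s.inl.hom := by
      have := congrArg CommRingCat.Hom.hom hm1
      simpa using this
    have e2 : m.hom.comp (algebraMap T (DC g)) = s.inr.hom := by
      have := congrArg CommRingCat.Hom.hom hm2
      simpa using this
    refine DC.hom_ext g _ _ (fun a => ?_) ?_ ?_
    · exact (RingHom.congr_fun e2 a).trans (RingHom.congr_fun (h1 s) a).symm
    · have := RingHom.congr_fun e1 (DC.x f)
      rw [RingHom.comp_apply, DC.map_x] at this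
      exact this.trans (h2 s).symm
    · have := RingHom.congr_fun e1 (DC.y f)
      rw [RingHom.comp_apply, DC.map_y] at this
      exact this.trans (h3 s).symm
-- END SA10

/-- The map between the first charts. -/
def A0.map (φ : R →+* T) (c : R) : A0 c →+* A0 (φ c) := DC.map φ _ _ (map_map_f0 φ c)

/-- The map between the second charts. -/
def A1.map (φ : R →+* T) (c : R) : A1 c →+* A1 (φ c) := DC.map φ _ _ (map_map_f1 φ c)

-- BEGIN SA11
/-- The map between the intersections of the charts. -/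
def Ov.map (φ : R →+* T) (c : R) : Ov c →+* Ov (φ c) :=
  IsLocalization.Away.lift (DC.x (f0 c)) (g := (algebraMap (A0 (φ c)) (Ov (φ c))).comp (A0.map φ c))
    (by
      rw [RingHom.comp_apply, A0.map, DC.map_x]
      exact IsLocalization.Away.algebraMap_isUnit _)

theorem Ov.map_comp_algebraMap (φ : R →+* T) (c : R) :
    (Ov.map φ c).comp (algebraMap (A0 c) (Ov c)) =
      (algebraMap (A0 (φ c)) (Ov (φ c))).comp (A0.map φ c) :=
  RingHom.ext fun a => IsLocalization.Away.lift_eq _ (by
    rw [RingHom.comp_apply, A0.map, DC.map_x]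
    exact IsLocalization.Away.algebraMap_isUnit _) a

theorem SA11_map_algebraMap (φ : R →+* T) (c : R) (a : A0 c) :
    Ov.map φ c (algebraMap (A0 c) (Ov c) a) =
      algebraMap (A0 (φ c)) (Ov (φ c)) (A0.map φ c a) :=
  RingHom.congr_fun (Ov.map_comp_algebraMap φ c) a

theorem SA11_map_xinv (φ : R →+* T) (c : R) : Ov.map φ c (Ov.xinv c) = Ov.xinv (φ c) := by
  have h1 := congrArg (Ov.map φ c) (Ov.x_mul_xinv c)
  rw [map_mul, map_one, SA11_map_algebraMap, A0.map, DC.map_x] at h1
  have h2 := Ov.x_mul_xinv (φ c)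
  have hu : IsUnit (algebraMap (A0 (φ c)) (Ov (φ c)) (DC.x (f0 (φ c)))) :=
    IsLocalization.Away.algebraMap_isUnit _
  exact hu.mul_left_cancel (h1.trans h2.symm)

theorem Ov.map_comp_toOv (φ : R →+* T) (c : R) :
    (Ov.map φ c).comp (toOv c) = (toOv (φ c)).comp (A1.map φ c) := by
  apply DC.hom_ext
  · intro a
    have h1 : toOv c (algebraMap R (A1 c) a) = algebraMap R (Ov c) a :=
      RingHom.congr_fun (toOv_comp c) a
    have h2 : A1.map φ c (algebraMap R (A1 c) a) = algebraMap T (A1 (φ c)) (φ a) :=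
      RingHom.congr_fun (DC.map_algebraMap φ (f1 c) (f1 (φ c)) (map_map_f1 φ c)) a
    have h3 : A0.map φ c (algebraMap R (A0 c) a) = algebraMap T (A0 (φ c)) (φ a) :=
      RingHom.congr_fun (DC.map_algebraMap φ (f0 c) (f0 (φ c)) (map_map_f0 φ c)) a
    have h4 : toOv (φ c) (algebraMap T (A1 (φ c)) (φ a)) = algebraMap T (Ov (φ c)) (φ a) :=
      RingHom.congr_fun (toOv_comp (φ c)) (φ a)
    rw [RingHom.comp_apply, RingHom.comp_apply, h1, h2, h4,
      IsScalarTower.algebraMap_apply R (A0 c) (Ov c), SA11_map_algebraMap, h3,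
      ← IsScalarTower.algebraMap_apply T (A0 (φ c)) (Ov (φ c))]
  · rw [RingHom.comp_apply, RingHom.comp_apply, toOv_x, SA11_map_xinv, A1.map, DC.map_x, toOv_x]
  · rw [RingHom.comp_apply, RingHom.comp_apply, toOv_y, map_mul, map_pow, SA11_map_xinv,
      SA11_map_algebraMap, A0.map, DC.map_y, A1.map, DC.map_y, toOv_y]
-- END SA11

end baseChange

section valuation

variable {R : Type u} [CommRing R] {V K : Type u} [CommRing V] [IsDomain V] [ValuationRing V]
  [Field K] [Algebra V K] [IsFractionRing V K]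

-- BEGIN SA12
/-- A `K`-point of `y² = f(x)` over `V` with `x ∈ V` is a `V`-point: `y² ∈ V` and `V` is
integrally closed. -/
theorem DC.lift_valuation (f : R[X]) (ρ : R →+* V) (φ : DC f →+* K)
    (hρ : φ.comp (algebraMap R (DC f)) = (algebraMap V K).comp ρ)
    (hx : φ (DC.x f) ∈ (algebraMap V K).range) :
    ∃ ψ : DC f →+* V, (algebraMap V K).comp ψ = φ ∧ ψ.comp (algebraMap R (DC f)) = ρ := by
  obtain ⟨v, hv⟩ := hx
  have hinj : Function.Injective (algebraMap V K) := IsFractionRing.injective V K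
  have h1 : φ.comp (AdjoinRoot.of (rel f)) =
      eval₂RingHom ((algebraMap V K).comp ρ) (φ (DC.x f)) := by
    apply Polynomial.ringHom_ext
    · intro a
      rw [coe_eval₂RingHom, eval₂_C, ← hρ]
      rfl
    · rw [coe_eval₂RingHom, eval₂_X]
      rfl
  have h2 : φ (DC.y f) ^ 2 + algebraMap V K (v ^ 2) * φ (DC.y f) =
      algebraMap V K (f.eval₂ ρ v) := by
    have h3 := congrArg φ (DC.y_sq f)
    rw [map_add, map_mul, map_pow, map_pow, ← hv] at h3
    rw [map_pow, h3, hom_eval₂, hv]
    exact RingHom.congr_fun h1 f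
  obtain ⟨w, hw⟩ := IsIntegrallyClosed.algebraMap_eq_of_integral (R := V)
    (x := φ (DC.y f)) (by
      refine ⟨X ^ 2 + (C (v ^ 2) * X - C (f.eval₂ ρ v)), monic_X_pow_add ?_, ?_⟩
      · refine (degree_sub_le _ _).trans_lt (max_lt ?_ ?_)
        · exact (degree_C_mul_X_le _).trans_lt (by norm_num)
        · exact degree_C_le.trans_lt (by norm_num)
      · simp only [eval₂_add, eval₂_sub, eval₂_mul, eval₂_pow, eval₂_X, eval₂_C]
        rw [← add_sub_assoc, h2, sub_self])
  have h3 : w ^ 2 + v ^ 2 * w = f.eval₂ ρ v := by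
    apply hinj
    rw [map_add, map_mul, map_pow, hw, h2]
  obtain ⟨ψ, hψρ, hψx, hψy⟩ := DC.exists_hom f ρ v w h3
  refine ⟨ψ, ?_, hψρ⟩
  apply DC.hom_ext
  · intro a
    have h4 : ψ (algebraMap R (DC f) a) = ρ a := RingHom.congr_fun hψρ a
    have h5 : φ (algebraMap R (DC f) a) = algebraMap V K (ρ a) := RingHom.congr_fun hρ a
    rw [RingHom.comp_apply, h4, h5]
  · rw [RingHom.comp_apply, hψx, hv]
  · rw [RingHom.comp_apply, hψy, hw]
-- END SA12

end valuation

end Pool.Agent.Lib.MP_211349_ag.Even
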