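import Mathlib

/-!
# The curves `y² + y = x³ + c x⁻³` in characteristic two

For a commutative ring `R` and `c : R` the scheme `curve R c` over `Spec R` is glued of the two
charts `z² + x² z = x⁷ + c x` and `w² + t² w = t + c t⁷` by `t = 1 / x`, `w = z / x⁴`.
-/

open CategoryTheory Limits AlgebraicGeometry Polynomial

universe u

noncomputable section

namespace Pool.Agent.Lib.MP_211349_ag.Even

section rings

variable {R : Type u} [CommRing R]

/-- The polynomial `x⁷ + c x`. -/
def f0 (c : R) : R[X] := X ^ 7 + C c * X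

/-- The polynomial `t + c t⁷`. -/
def f1 (c : R) : R[X] := X + C c * X ^ 7

/-- The polynomial `z² + x² z - f(x)`. -/
def rel (f : R[X]) : R[X][X] := X ^ 2 + C (X ^ 2) * X - C f

/-- The ring `R[x, z] / (z² + x² z - f(x))`. -/
abbrev DC (f : R[X]) : Type u := AdjoinRoot (rel f)

/-- The element `x` of `R[x, z] / (z² + x² z - f(x))`. -/
def DC.x (f : R[X]) : DC f := AdjoinRoot.of _ X

/-- The element `z` of `R[x, z] / (z² + x² z - f(x))`. -/
def DC.y (f : R[X]) : DC f := AdjoinRoot.root _

theorem eval₂_rel {S : Type*} [CommRing S] (ρ : R[X] →+* S) (y : S) (f : R[X]) :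
    (rel f).eval₂ ρ y = y ^ 2 + ρ X ^ 2 * y - ρ f := by
  simp only [rel, eval₂_sub, eval₂_add, eval₂_mul, eval₂_pow, eval₂_X, eval₂_C, map_pow]

theorem DC.y_sq (f : R[X]) :
    DC.y f ^ 2 + DC.x f ^ 2 * DC.y f = AdjoinRoot.of _ f := by
  have h := AdjoinRoot.eval₂_root (rel f)
  rw [eval₂_rel] at h
  exact sub_eq_zero.mp h

/-- The ring of the first chart. -/
abbrev A0 (c : R) : Type u := DC (f0 c)

/-- The ring of the second chart. -/
abbrev A1 (c : R) : Type u := DC (f1 c)

/-- The ring of the intersection of the charts: `R[x, z, 1/x] / (z² + x² z - x⁷ - c x)`. -/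
abbrev Ov (c : R) : Type u := Localization.Away (DC.x (f0 c))

/-- The element `1 / x`. -/
def Ov.xinv (c : R) : Ov c := IsLocalization.Away.invSelf (DC.x (f0 c))

theorem Ov.x_mul_xinv (c : R) : algebraMap (A0 c) (Ov c) (DC.x _) * Ov.xinv c = 1 :=
  IsLocalization.Away.mul_invSelf _

theorem map_f0 {S : Type*} [CommRing S] (ψ : R[X] →+* S) (c : R) :
    ψ (f0 c) = ψ X ^ 7 + ψ (C c) * ψ X := by
  simp only [f0, map_mul, map_add, map_pow]

theorem map_f1 {S : Type*} [CommRing S] (ψ : R[X] →+* S) (c : R) :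
    ψ (f1 c) = ψ X + ψ (C c) * ψ X ^ 7 := by
  simp only [f1, map_mul, map_add, map_pow]

/-- The inclusion of the second chart, `t ↦ 1 / x` and `w ↦ z / x⁴`. -/
def toOv (c : R) : A1 c →+* Ov c :=
  AdjoinRoot.lift (eval₂RingHom (algebraMap R (Ov c)) (Ov.xinv c))
    (algebraMap (A0 c) (Ov c) (DC.y _) * Ov.xinv c ^ 4) (by
      have hx := Ov.x_mul_xinv c
      have hC : ∀ a : R, algebraMap (A0 c) (Ov c) (AdjoinRoot.of _ (C a)) = algebraMap R (Ov c) a := by
        intro a
        rw [IsScalarTower.algebraMap_apply R (A0 c) (Ov c)]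
        rfl
      have hf' : algebraMap (A0 c) (Ov c) (AdjoinRoot.of _ (f0 c)) =
          algebraMap (A0 c) (Ov c) (DC.x _) ^ 7 +
            algebraMap R (Ov c) c * algebraMap (A0 c) (Ov c) (DC.x _) := by
        rw [← hC c]
        exact map_f0 ((algebraMap (A0 c) (Ov c)).comp (AdjoinRoot.of _)) c
      have hy := congrArg (algebraMap (A0 c) (Ov c)) (DC.y_sq (f0 c))
      rw [hf', map_add, map_mul, map_pow, map_pow] at hy
      rw [eval₂_rel, map_f1]
      simp only [coe_eval₂RingHom, eval₂_X, eval₂_C]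
      generalize algebraMap (A0 c) (Ov c) (DC.x _) = x at hx hy
      generalize algebraMap (A0 c) (Ov c) (DC.y _) = y at hy
      generalize Ov.xinv c = z at hx
      generalize algebraMap R (Ov c) c = d at hy
      have h1 : (y * z ^ 4) ^ 2 + z ^ 2 * (y * z ^ 4) - (z + d * z ^ 7) =
        (y ^ 2 + x ^ 2 * y - (x ^ 7 + d * x)) * z ^ 8 + z * ((x * z) ^ 7 - 1) +
          d * z ^ 7 * (x * z - 1) - y * z ^ 6 * ((x * z) ^ 2 - 1) := by ring
      rw [h1, hy, hx]
      ring)

theorem toOv_comp (c : R) : (toOv c).comp (algebraMap R (A1 c)) = algebraMap R (Ov c) := by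
  ext a
  change toOv c (AdjoinRoot.of _ (C a)) = _
  simp [toOv]

theorem toOv_x (c : R) : toOv c (DC.x (f1 c)) = Ov.xinv c :=
  (AdjoinRoot.lift_of _).trans (by simp)

theorem toOv_y (c : R) :
    toOv c (DC.y (f1 c)) = algebraMap (A0 c) (Ov c) (DC.y _) * Ov.xinv c ^ 4 :=
  AdjoinRoot.lift_root _

theorem toOv_C (c a : R) :
    toOv c (AdjoinRoot.of _ (C a)) = algebraMap R (Ov c) a :=
  (AdjoinRoot.lift_of _).trans (by simp)

/-- The element `1 / t` of the localization of the second chart at `t`. -/
def tinv (c : R) : Localization.Away (DC.x (f1 c)) := IsLocalization.Away.invSelf (DC.x (f1 c))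

theorem t_mul_tinv (c : R) :
    algebraMap (A1 c) (Localization.Away (DC.x (f1 c))) (DC.x _) * tinv c = 1 :=
  IsLocalization.Away.mul_invSelf _

theorem algebraMap_eq_of (c : R) (a : R) {M : Submonoid (A0 c)} :
    algebraMap (A0 c) (Localization M) (AdjoinRoot.of _ (C a)) =
      algebraMap R (Localization M) a := by
  rw [IsScalarTower.algebraMap_apply R (A0 c) (Localization M)]
  rfl

/-- The map from the first chart to the localization of the second chart at `t`. -/
def fromA0 (c : R) : A0 c →+* Localization.Away (DC.x (f1 c)) :=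
  AdjoinRoot.lift (eval₂RingHom (algebraMap R _) (tinv c))
    (algebraMap (A1 c) _ (DC.y _) * tinv c ^ 4) (by
      have hx := t_mul_tinv c
      have hC : ∀ a : R, algebraMap (A1 c) (Localization.Away (DC.x (f1 c)))
          (AdjoinRoot.of _ (C a)) = algebraMap R _ a := by
        intro a
        rw [IsScalarTower.algebraMap_apply R (A1 c) (Localization.Away (DC.x (f1 c)))]
        rfl
      have hf' : algebraMap (A1 c) (Localization.Away (DC.x (f1 c))) (AdjoinRoot.of _ (f1 c)) =
          algebraMap (A1 c) (Localization.Away (DC.x (f1 c))) (DC.x _) +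
            algebraMap R _ c * algebraMap (A1 c) (Localization.Away (DC.x (f1 c))) (DC.x _) ^ 7 := by
        rw [← hC c]
        exact map_f1 ((algebraMap (A1 c) (Localization.Away (DC.x (f1 c)))).comp (AdjoinRoot.of _)) c
      have hy := congrArg (algebraMap (A1 c) (Localization.Away (DC.x (f1 c)))) (DC.y_sq (f1 c))
      rw [hf', map_add, map_mul, map_pow, map_pow] at hy
      rw [eval₂_rel, map_f0]
      simp only [coe_eval₂RingHom, eval₂_X, eval₂_C]
      generalize algebraMap (A1 c) (Localization.Away (DC.x (f1 c))) (DC.x _) = x at hx hy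
      generalize algebraMap (A1 c) (Localization.Away (DC.x (f1 c))) (DC.y _) = y at hy
      generalize tinv c = z at hx
      generalize algebraMap R (Localization.Away (DC.x (f1 c))) c = d at hy
      have h1 : (y * z ^ 4) ^ 2 + z ^ 2 * (y * z ^ 4) - (z ^ 7 + d * z) =
        (y ^ 2 + x ^ 2 * y - (x + d * x ^ 7)) * z ^ 8 + d * z * ((x * z) ^ 7 - 1) +
          z ^ 7 * (x * z - 1) - y * z ^ 6 * ((x * z) ^ 2 - 1) := by ring
      rw [h1, hy, hx]
      ring)

theorem fromA0_x (c : R) : fromA0 c (DC.x (f0 c)) = tinv c :=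
  (AdjoinRoot.lift_of _).trans (by simp)

theorem fromA0_y (c : R) :
    fromA0 c (DC.y (f0 c)) = algebraMap (A1 c) _ (DC.y _) * tinv c ^ 4 :=
  AdjoinRoot.lift_root _

theorem fromA0_C (c a : R) :
    fromA0 c (AdjoinRoot.of _ (C a)) = algebraMap R _ a :=
  (AdjoinRoot.lift_of _).trans (by simp)

theorem isUnit_tinv (c : R) : IsUnit (tinv c) :=
  IsUnit.of_mul_eq_one _ (by rw [mul_comm]; exact t_mul_tinv c)

theorem isUnit_xinv (c : R) : IsUnit (Ov.xinv c) :=
  IsUnit.of_mul_eq_one _ (by rw [mul_comm]; exact Ov.x_mul_xinv c)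

/-- The map from the localization of the first chart at `x` to the localization of the second
chart at `t`. -/
def ovTo (c : R) : Ov c →+* Localization.Away (DC.x (f1 c)) :=
  IsLocalization.Away.lift (DC.x (f0 c)) (g := fromA0 c) (by rw [fromA0_x]; exact isUnit_tinv c)

/-- The map from the localization of the second chart at `t` to the localization of the first
chart at `x`. -/
def toOv' (c : R) : Localization.Away (DC.x (f1 c)) →+* Ov c :=
  IsLocalization.Away.lift (DC.x (f1 c)) (g := toOv c) (by rw [toOv_x]; exact isUnit_xinv c)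

theorem ovTo_algebraMap (c : R) (a : A0 c) : ovTo c (algebraMap (A0 c) (Ov c) a) = fromA0 c a :=
  IsLocalization.Away.lift_eq _ _ _

theorem toOv'_algebraMap (c : R) (a : A1 c) :
    toOv' c (algebraMap (A1 c) (Localization.Away (DC.x (f1 c))) a) = toOv c a :=
  IsLocalization.Away.lift_eq _ _ _

theorem ovTo_xinv (c : R) :
    ovTo c (Ov.xinv c) = algebraMap (A1 c) (Localization.Away (DC.x (f1 c))) (DC.x _) := by
  have h1 := congrArg (ovTo c) (Ov.x_mul_xinv c)
  rw [map_mul, map_one, ovTo_algebraMap, fromA0_x] at h1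
  have h2 := t_mul_tinv c
  exact (isUnit_tinv c).mul_left_cancel (by rw [h1, mul_comm, h2])

theorem toOv'_tinv (c : R) :
    toOv' c (tinv c) = algebraMap (A0 c) (Ov c) (DC.x _) := by
  have h1 := congrArg (toOv' c) (t_mul_tinv c)
  rw [map_mul, map_one, toOv'_algebraMap, toOv_x] at h1
  have h2 := Ov.x_mul_xinv c
  exact (isUnit_xinv c).mul_left_cancel (by rw [h1, mul_comm, h2])

theorem ovTo_comp_toOv (c : R) :
    (ovTo c).comp (toOv c) = algebraMap (A1 c) (Localization.Away (DC.x (f1 c))) := by
  apply AdjoinRoot.ringHom_ext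
  · apply Polynomial.ringHom_ext
    · intro a
      simp only [RingHom.comp_apply]
      rw [toOv_C, IsScalarTower.algebraMap_apply R (A0 c) (Ov c), ovTo_algebraMap]
      rw [show algebraMap R (A0 c) a = AdjoinRoot.of _ (C a) from rfl, fromA0_C]
      rw [IsScalarTower.algebraMap_apply R (A1 c) (Localization.Away (DC.x (f1 c)))]
      rfl
    · simp only [RingHom.comp_apply]
      rw [show AdjoinRoot.of (rel (f1 c)) X = DC.x (f1 c) from rfl,
        toOv_x, ovTo_xinv]
  · rw [RingHom.comp_apply, show AdjoinRoot.root (rel (f1 c)) =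
      DC.y (f1 c) from rfl,
      toOv_y, map_mul, map_pow, ovTo_xinv, ovTo_algebraMap, fromA0_y]
    have h2 := t_mul_tinv c
    generalize algebraMap (A1 c) (Localization.Away (DC.x (f1 c))) (DC.x _) = t at h2 ⊢
    rw [mul_assoc, ← mul_pow, mul_comm (tinv c), h2, one_pow, mul_one]

theorem toOv'_comp_fromA0 (c : R) :
    (toOv' c).comp (fromA0 c) = algebraMap (A0 c) (Ov c) := by
  apply AdjoinRoot.ringHom_ext
  · apply Polynomial.ringHom_ext
    · intro a
      simp only [RingHom.comp_apply]
      rw [fromA0_C, IsScalarTower.algebraMap_apply R (A1 c) (Localization.Away (DC.x (f1 c))),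
        toOv'_algebraMap]
      rw [show algebraMap R (A1 c) a = AdjoinRoot.of _ (C a) from rfl, toOv_C]
      rw [IsScalarTower.algebraMap_apply R (A0 c) (Ov c)]
      rfl
    · simp only [RingHom.comp_apply]
      rw [show AdjoinRoot.of (rel (f0 c)) X = DC.x (f0 c) from rfl,
        fromA0_x, toOv'_tinv]
  · rw [RingHom.comp_apply, show AdjoinRoot.root (rel (f0 c)) =
      DC.y (f0 c) from rfl,
      fromA0_y, map_mul, map_pow, toOv'_tinv, toOv'_algebraMap, toOv_y]
    have h2 := Ov.x_mul_xinv c
    generalize algebraMap (A0 c) (Ov c) (DC.x _) = t at h2 ⊢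
    rw [mul_assoc, ← mul_pow, mul_comm (Ov.xinv c), h2, one_pow, mul_one]

/-- The localizations of the two charts agree. -/
def ovEquiv (c : R) : Localization.Away (DC.x (f1 c)) ≃+* Ov c :=
  RingEquiv.ofRingHom (toOv' c) (ovTo c)
    (by
      apply IsLocalization.ringHom_ext (Submonoid.powers (DC.x (f0 c)))
      rw [RingHom.comp_assoc, show (ovTo c).comp (algebraMap (A0 c) (Ov c)) = fromA0 c from
        RingHom.ext (ovTo_algebraMap c), toOv'_comp_fromA0, RingHom.id_comp])
    (by
      apply IsLocalization.ringHom_ext (Submonoid.powers (DC.x (f1 c)))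
      rw [RingHom.comp_assoc, show (toOv' c).comp (algebraMap (A1 c) _) = toOv c from
        RingHom.ext (toOv'_algebraMap c), ovTo_comp_toOv, RingHom.id_comp])

theorem ovEquiv_comp (c : R) :
    (ovEquiv c : Localization.Away (DC.x (f1 c)) →+* Ov c).comp (algebraMap (A1 c) _) = toOv c :=
  RingHom.ext (toOv'_algebraMap c)

/-- The ring of the intersection is the localization of the second chart at `t`. -/
theorem isLocalization_toOv (c : R) :
    @IsLocalization.Away (A1 c) _ (DC.x (f1 c)) (Ov c) _ (toOv c).toAlgebra := by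
  let _ := (toOv c).toAlgebra
  exact IsLocalization.isLocalization_of_algEquiv (Submonoid.powers (DC.x (f1 c)))
    (AlgEquiv.ofRingEquiv (f := ovEquiv c) (fun a => toOv'_algebraMap c a))

end rings

variable (R : Type u) [CommRing R] (c : R)

/-- The inclusion of the intersection into the first chart. -/
def ov0 : Spec (.of (Ov c)) ⟶ Spec (.of (A0 c)) :=
  Spec.map (CommRingCat.ofHom (algebraMap (A0 c) (Ov c)))

/-- The inclusion of the intersection into the second chart. -/
def ov1 : Spec (.of (Ov c)) ⟶ Spec (.of (A1 c)) :=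
  Spec.map (CommRingCat.ofHom (toOv c))

instance : IsOpenImmersion (ov0 R c) := by
  unfold ov0
  infer_instance

instance : IsOpenImmersion (ov1 R c) := by
  unfold ov1
  rw [← ovEquiv_comp, CommRingCat.ofHom_comp, Spec.map_comp]
  have h1 : IsOpenImmersion (Spec.map (CommRingCat.ofHom
      (algebraMap (A1 c) (Localization.Away (DC.x (f1 c)))))) := inferInstance
  have h2 : IsIso (CommRingCat.ofHom
      (ovEquiv c : Localization.Away (DC.x (f1 c)) →+* Ov c)) :=
    (ovEquiv c).toCommRingCatIso.isIso_hom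
  infer_instance

/-- The curve `y² + y = x³ + c x⁻³`, glued of `z² + x² z = x⁷ + c x` and
`w² + t² w = t + c t⁷`. -/
def curve : Scheme.{u} := pushout (ov0 R c) (ov1 R c)

/-- The structure morphism of the curve. -/
def toSpec : curve R c ⟶ Spec (.of R) :=
  pushout.desc (Spec.map (CommRingCat.ofHom (algebraMap R (A0 c))))
    (Spec.map (CommRingCat.ofHom (algebraMap R (A1 c)))) (by
      rw [ov0, ov1, ← Spec.map_comp, ← Spec.map_comp, ← CommRingCat.ofHom_comp,
        ← CommRingCat.ofHom_comp, toOv_comp, ← IsScalarTower.algebraMap_eq])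

end Pool.Agent.Lib.MP_211349_ag.Even
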