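import Pool.Agent.Lib.MP_211349_ag.Mg.G004
import Pool.Agent.Lib.MP_211349_ag.Final

/-!
# Characteristic two: final assembly
-/

open CategoryTheory Limits AlgebraicGeometry Polynomial

universe u

noncomputable section

namespace Pool.Agent.Lib.MP_211349_ag

theorem Even.final {K : Type u} [NontriviallyNormedField K] [IsUltrametricDist K]
    [IsAlgClosed K] [CharP K 2] (c₁ c₂ : K)
    (hc₁ : ∃ n, 0 < n ∧ c₁ ^ 2 ^ n = c₁) (hc₁0 : c₁ ≠ 0) (hc₂0 : c₂ ≠ 0) (hc₂ : ‖c₂‖ < 1) :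
    SmoothProper (Even.toSpec K c₁) ∧ SmoothProper (Even.toSpec K c₂) ∧
    (∀ (C' : Scheme.{u}) (π : C' ⟶ Even.curve K c₁), Covering π →
      ∃ (X : Scheme.{u}) (f : X ⟶ Spec (.of (unitBall K))),
        GoodModel (unitBall K) f (π ≫ Even.toSpec K c₁)) ∧
    (∀ (C' : Scheme.{u}) (π : C' ⟶ Even.curve K c₂), Covering π →
      ∀ (X : Scheme.{u}) (f : X ⟶ Spec (.of (unitBall K))),
        ¬ GoodModel (unitBall K) f (π ≫ Even.toSpec K c₂)) := by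
  have hO : RankOne (unitBall K) := rankOne_unitBall
  have h2K : (2 : K) = 0 := by
    have h := CharP.cast_eq_zero K 2
    exact_mod_cast h
  obtain ⟨F, _, _, _, _, _, hF⟩ := algebraic_closure_facts (K := K) 2
  obtain ⟨a, rfl⟩ := hF c₁ hc₁
  have h2F : (2 : F) = 0 := by
    apply (algebraMap F K).injective
    rw [map_ofNat, h2K, map_zero]
  have h3O : IsUnit (3 : unitBall K) := by
    have h2O : (2 : unitBall K) = 0 := Subtype.ext h2K
    have h : (3 : unitBall K) = 1 := by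
      have h' : (3 : unitBall K) = 2 + 1 := by norm_num
      rw [h', h2O, zero_add]
    rw [h]
    exact isUnit_one
  have ha0 : a ≠ 0 := by
    rintro rfl
    exact hc₁0 (map_zero _)
  have hc₂O : c₂ ∈ (unitBall K).nonunits := (mem_unitBall_nonunits c₂).mpr hc₂
  refine ⟨?_, ?_, ?_, ?_⟩
  · exact ⟨Even.curve_isProper' _ _, Even.curve_smooth' _ _ h2K (isUnit_iff_ne_zero.mpr hc₁0),
      Even.curve_isIntegral' _ _ hc₁0⟩
  · exact ⟨Even.curve_isProper' _ _, Even.curve_smooth' _ _ h2K (isUnit_iff_ne_zero.mpr hc₂0),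
      Even.curve_isIntegral' _ _ hc₂0⟩
  · intro C₁ π₁ h
    have := h.isFinite
    have := h.etale
    have := h.isIntegral
    obtain ⟨X₁, f₁, hp₁, hs₁, hg₁, hk₁⟩ := Even.exists_smooth_model' (unitBall K) hO h2F a ha0 π₁
    exact ⟨X₁, f₁, hp₁, hs₁, hg₁, hk₁⟩
  · intro C₂ π₂ h X₂ f₂ h₂
    have := h.isFinite
    have := h.etale
    have := h.isIntegral
    have := h₂.isProper
    have := h₂.smooth
    obtain ⟨x, y, hxy, hx, hxL⟩ := Even.curve_functions' K c₂ hc₂0 π₂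
    let _ := (toFunctionField (π₂ ≫ Even.toSpec K c₂)).toAlgebra
    obtain ⟨v, w, hv, hw, hvn, hwn, hne⟩ :=
      exists_NR_pair (unitBall K) h3O x y hx c₂ hc₂0 hc₂O hxy
    exact hne (NR_unique (unitBall K) hO f₂ _ h₂.generic h₂.special ⟨x, hx, hxL⟩
      v w hv hw hvn hwn)

theorem NeverClose.of {K : Type u} [Field K] {O : ValuationSubring K} (hO : RankOne O)
    {C₁ C₂ : Scheme.{u}} {g₁ : C₁ ⟶ Spec (.of K)} {g₂ : C₂ ⟶ Spec (.of K)}
    (h : SmoothProper g₁ ∧ SmoothProper g₂ ∧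
      (∀ (C' : Scheme.{u}) (π : C' ⟶ C₁), Covering π →
        ∃ (X : Scheme.{u}) (f : X ⟶ Spec (.of O)), GoodModel O f (π ≫ g₁)) ∧
      (∀ (C' : Scheme.{u}) (π : C' ⟶ C₂), Covering π →
        ∀ (X : Scheme.{u}) (f : X ⟶ Spec (.of O)), ¬ GoodModel O f (π ≫ g₂))) :
    NeverClose O g₁ g₂ := by
  obtain ⟨h1, h2, h3, h4⟩ := h
  refine ⟨h1, h2, h3, h4, ?_⟩
  intro ι₁ ι₂ C₁ C₂ π₁ π₂ X₁ X₂ f₁ f₂ hι _ hπ₂ hf₁ hf₂ ϖ h0 hu
  exact not_isoMod_of_bad hO g₂ h2.smooth h4 _ π₂ f₁ f₂ hι hπ₂ hf₁ hf₂ ϖ h0 hu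

end Pool.Agent.Lib.MP_211349_ag
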